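import Mathlib
import Pool.Agent.Helper71_Ladder.Ramsey

set_option autoImplicit false

namespace Pool.Agent.Results.MP_d089b7_co.LadderModest

open Filter Pool.Agent.Helper71_NFree Pool.Agent.Helper71_Ladder

/-- Every finite poset built from induced subposets of the grids `2 × t` by series and parallel composition
satisfies `R(P, Q_n) ≤ n + C n / log n`. -/
theorem result :
    ∀ (α : Type) [Fintype α] [PartialOrder α],
      (∀ S : Finset α, 2 ≤ S.card →
        (∃ A : Finset α, A ⊆ S ∧ A.Nonempty ∧ A ≠ S ∧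
          ((∀ a ∈ A, ∀ b ∈ S, b ∉ A → a < b) ∨ (∀ a ∈ A, ∀ b ∈ S, b ∉ A → ¬ a ≤ b ∧ ¬ b ≤ a))) ∨
        (∃ (t : ℕ) (e : α → Fin 2 × Fin t), ∀ x ∈ S, ∀ y ∈ S, e x ≤ e y ↔ x ≤ y)) →
      ∃ C : ℝ, 0 < C ∧ ∀ᶠ n : ℕ in atTop, ∀ N : ℕ,
        (n : ℝ) + C * (n : ℝ) / Real.log (n : ℝ) ≤ (N : ℝ) →
        ∀ c : Finset (Fin N) → Bool,
          (∃ f : α ↪o Finset (Fin N), ∀ x, c (f x) = true) ∨
          (∃ g : Finset (Fin n) ↪o Finset (Fin N), ∀ s, c (g s) = false) := by
  classical
  intro α _ _ hP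
  by_cases hne : Nonempty α
  · apply modest_of_ugood
    refine ugood_of_pieces ?_ (Finset.univ : Finset α).card Finset.univ (le_refl _) Finset.univ_nonempty
    intro S hS
    rcases hP S hS with ⟨A, hAS, hA, hAne, hcase⟩ | h
    · left
      have hex : ∃ x ∈ S, x ∉ A := by
        by_contra hcon
        push Not at hcon
        exact hAne (hAS.antisymm hcon)
      rcases hcase with h1 | h1
      · exact ⟨A, Or.inl ⟨hAS, hA, hex, h1⟩⟩
      · exact ⟨A, Or.inr ⟨hAS, hA, hex, h1⟩⟩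
    · exact Or.inr h
  · refine ⟨1, one_pos, Filter.Eventually.of_forall ?_⟩
    intro n N _ c
    left
    have he : IsEmpty α := not_nonempty_iff.1 hne
    exact ⟨OrderEmbedding.ofMapLEIff (fun x => (he.false x).elim) (fun x => (he.false x).elim),
      fun x => (he.false x).elim⟩

end Pool.Agent.Results.MP_d089b7_co.LadderModest
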